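import Pool.Agent.Lib.MP_ccdac2_co.Final

/-!
# MP_ccdac2_co: real reliability roots of almost all graphs

The proportion of labelled graphs on `n` vertices whose all-terminal reliability polynomial has a
real root different from `1` tends to `1/2`. In particular it does not tend to `1`.
-/

namespace Pool.Agent.Results.MP_ccdac2_co.HalfLimit

open Filter

open Classical in
/-- The all-terminal reliability polynomial of the finite graph `G` at `q` (each edge fails with
probability `q`): the sum of `(1-q)^|A| q^(m-|A|)` over the edge sets `A ⊆ E(G)` for which the graph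
`(V, A)` is connected, `m` being the number of edges of `G`. -/
noncomputable def Rel {V : Type} [Fintype V] (G : SimpleGraph V) (q : ℝ) : ℝ :=
  ∑ A ∈ G.edgeFinset.powerset.filter
    (fun A : Finset (Sym2 V) => (SimpleGraph.fromEdgeSet (A : Set (Sym2 V))).Connected),
    (1 - q) ^ A.card * q ^ (G.edgeFinset.card - A.card)

open Classical in
theorem Rel_eq (n : ℕ) (G : SimpleGraph (Fin n)) (q : ℝ) :
    Rel G q = RelRoots.relE n G.edgeFinset q := by
  have key : ∀ A : Finset (Sym2 (Fin n)),
      (SimpleGraph.fromEdgeSet (A : Set (Sym2 (Fin n)))).Connected ↔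
        RelRoots.Conn Finset.univ A := by
    intro A
    rw [SimpleGraph.connected_iff]
    unfold RelRoots.Conn
    constructor
    · rintro ⟨h1, h2⟩
      exact ⟨Finset.univ_nonempty, fun u _ w _ => h1 u w⟩
    · rintro ⟨⟨v, _⟩, h2⟩
      exact ⟨fun u w => h2 u (Finset.mem_univ u) w (Finset.mem_univ w), ⟨v⟩⟩
  unfold Rel RelRoots.relE
  refine Finset.sum_congr ?_ (fun A _ => rfl)
  ext A
  rw [@Finset.mem_filter _ _ (_) _ _, @Finset.mem_filter _ _ (_) _ _]
  exact and_congr Iff.rfl (key A)

/-- The proportion of labelled graphs on `n` vertices whose reliability polynomial has a real root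
different from `1` tends to `1/2`. -/
theorem result :
    Tendsto (fun n : ℕ =>
      (Nat.card {G : SimpleGraph (Fin n) // ∃ q : ℝ, q ≠ 1 ∧ Rel G q = 0} : ℝ) /
        (Nat.card (SimpleGraph (Fin n)) : ℝ)) atTop (nhds (1 / 2)) := by
  classical
  refine RelRoots.tendsto_Pr.congr (fun n => ?_)
  rw [← RelRoots.proportion_eq]
  congr 2
  refine Nat.card_congr (Equiv.subtypeEquivRight (fun G => ?_))
  refine exists_congr (fun q => and_congr Iff.rfl ?_)
  rw [Rel_eq]

end Pool.Agent.Results.MP_ccdac2_co.HalfLimit
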